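import Mathlib

set_option autoImplicit false

namespace BH

namespace AD

open Complex

variable {A : Type*} [CommRing A] [Algebra ℂ A]

/-- `B = l (p q - 1) + (1 - i t) p + (1 + i t) q` -/
noncomputable def Bx (t l : ℝ) (p q : A) : A :=
  algebraMap ℂ A (l : ℂ) * (p * q - 1) + algebraMap ℂ A (1 - I * t) * p
    + algebraMap ℂ A (1 + I * t) * q

/-- `ν = (1 - i t) + 2 l q - (1 + i t) q ^ 2` -/
noncomputable def nx (t l : ℝ) (q : A) : A :=
  algebraMap ℂ A (1 - I * t) + 2 * algebraMap ℂ A (l : ℂ) * q - algebraMap ℂ A (1 + I * t) * q ^ 2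

/-- `ν~ = (1 + i t) + 2 l p - (1 - i t) p ^ 2` -/
noncomputable def mx (t l : ℝ) (p : A) : A :=
  algebraMap ℂ A (1 + I * t) + 2 * algebraMap ℂ A (l : ℂ) * p - algebraMap ℂ A (1 - I * t) * p ^ 2

variable {ι : Type*} [Fintype ι] [DecidableEq ι]

/-- product of the other `B`'s -/
noncomputable def Pr (t l : ι → ℝ) (p q : A) (i : ι) : A :=
  ∏ j ∈ Finset.univ.erase i, Bx (t j) (l j) p q

noncomputable def Gx (μ : ι → ℕ) (t l : ι → ℝ) (p q : A) : A :=
  (∑ i, (μ i : A) * (nx (t i) (l i) q * Pr t l p q i) ^ 3)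
    + algebraMap ℂ A (2 / 3) * (∑ i, (μ i : A) * (nx (t i) (l i) q * Pr t l p q i))
      * (∑ i, (μ i : A) * (nx (t i) (l i) q * Pr t l p q i) ^ 2)

end AD

end BH
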