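import Mathlib
import Pool.Agent.Lib_helper71.BH.ADUnitB

set_option autoImplicit false
set_option maxSynthPendingDepth 8

namespace BH

namespace AD

open Complex Polynomial

section defs

variable {A : Type*} [CommRing A] [Algebra ℂ A]

noncomputable def sx (t l : ℝ) (p q y : A) : A := nx t l q + mx t l p * y

noncomputable def tx (t l : ℝ) (p q y : A) : A := nx t l q - mx t l p * y

variable {ι : Type*} [Fintype ι] [DecidableEq ι]

noncomputable def Kx (μ : ι → ℕ) (t l : ι → ℝ) (p q y : A) : A :=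
  algebraMap ℂ A (I / 3) * ∑ i, (μ i : A) * (tx (t i) (l i) p q y * Pr t l p q i)

noncomputable def Px (μ : ι → ℕ) (t l : ι → ℝ) (p q y : A) : A :=
  (2 * (∑ i, (μ i : A)) + 3) * (4 * (∏ i, Bx (t i) (l i) p q) ^ 2 * y) * Kx μ t l p q y
  - 3 * Kx μ t l p q y ^ 3
  - 2 * Kx μ t l p q y *
    (∑ i, (μ i : A) * (algebraMap ℂ A (-I) * (tx (t i) (l i) p q y * Pr t l p q i)) ^ 2)
  + Kx μ t l p q y * (∑ i, (μ i : A) * (sx (t i) (l i) p q y * Pr t l p q i) ^ 2)
  - (∑ i, (μ i : A) * (sx (t i) (l i) p q y * Pr t l p q i) ^ 2 *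
      (algebraMap ℂ A (-I) * (tx (t i) (l i) p q y * Pr t l p q i)))
  + algebraMap ℂ A (1 / 3) * ((∑ i, (μ i : A) * (sx (t i) (l i) p q y * Pr t l p q i) *
      (algebraMap ℂ A (-I) * (tx (t i) (l i) p q y * Pr t l p q i)))
      - Kx μ t l p q y * ∑ i, (μ i : A) * (sx (t i) (l i) p q y * Pr t l p q i))
    * ∑ i, (μ i : A) * (sx (t i) (l i) p q y * Pr t l p q i)

variable {B : Type*} [CommRing B] [Algebra ℂ B]

theorem map_mx (φ : A →ₐ[ℂ] B) (t l : ℝ) (p : A) : φ (mx t l p) = mx t l (φ p) := by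
  simp [mx, map_ofNat φ 2]

theorem map_sx (φ : A →ₐ[ℂ] B) (t l : ℝ) (p q y : A) :
    φ (sx t l p q y) = sx t l (φ p) (φ q) (φ y) := by
  simp [sx, map_nx, map_mx]

theorem map_tx (φ : A →ₐ[ℂ] B) (t l : ℝ) (p q y : A) :
    φ (tx t l p q y) = tx t l (φ p) (φ q) (φ y) := by
  simp [tx, map_nx, map_mx]

theorem map_Kx (φ : A →ₐ[ℂ] B) (μ : ι → ℕ) (t l : ι → ℝ) (p q y : A) :
    φ (Kx μ t l p q y) = Kx μ t l (φ p) (φ q) (φ y) := by
  simp only [Kx, map_mul, map_sum, map_Pr, map_tx, map_natCast, AlgHom.commutes]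

theorem map_Px (φ : A →ₐ[ℂ] B) (μ : ι → ℕ) (t l : ι → ℝ) (p q y : A) :
    φ (Px μ t l p q y) = Px μ t l (φ p) (φ q) (φ y) := by
  simp only [Px, map_add, map_sub, map_mul, map_pow, map_sum, map_prod, map_Pr, map_tx, map_sx,
    map_Kx, map_Bx, map_natCast, AlgHom.commutes, map_ofNat]

theorem sx_zero (t l : ℝ) (p q : A) : sx t l p q 0 = nx t l q := by simp [sx]

theorem tx_zero (t l : ℝ) (p q : A) : tx t l p q 0 = nx t l q := by simp [tx]

/-- `P(p, q, 0) = i G(p, q)` -/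
theorem Px_zero (μ : ι → ℕ) (t l : ι → ℝ) (p q : A) :
    Px μ t l p q 0 = algebraMap ℂ A I * Gx μ t l p q := by
  have hI : algebraMap ℂ A I ^ 2 = -1 := by
    rw [← map_pow, I_sq]; simp
  have h3 : algebraMap ℂ A (I / 3) = algebraMap ℂ A I * algebraMap ℂ A (1 / 3) := by
    rw [← map_mul]; congr 1; ring
  have h23 : algebraMap ℂ A (2 / 3) = 2 * algebraMap ℂ A (1 / 3) := by
    have : (2 : A) = algebraMap ℂ A 2 := (map_ofNat (algebraMap ℂ A) 2).symm
    rw [this, ← map_mul]; congr 1; ring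
  have h13 : 3 * algebraMap ℂ A (1 / 3) = 1 := by
    have : (3 : A) = algebraMap ℂ A 3 := (map_ofNat (algebraMap ℂ A) 3).symm
    rw [this, ← map_mul, ← map_one (algebraMap ℂ A)]; congr 1; norm_num
  simp only [Px, Kx, Gx, sx_zero, tx_zero, map_neg, h3, h23]
  set s1 := ∑ i, (μ i : A) * (nx (t i) (l i) q * Pr t l p q i) with hs1
  set s2 := ∑ i, (μ i : A) * (nx (t i) (l i) q * Pr t l p q i) ^ 2 with hs2
  set s3 := ∑ i, (μ i : A) * (nx (t i) (l i) q * Pr t l p q i) ^ 3 with hs3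
  set J := algebraMap ℂ A I with hJ
  set c := algebraMap ℂ A (1 / 3) with hc
  have e1 : ∑ i, (μ i : A) * (-J * (nx (t i) (l i) q * Pr t l p q i)) ^ 2 = J ^ 2 * s2 := by
    rw [hs2, Finset.mul_sum]
    exact Finset.sum_congr rfl fun i _ => by ring
  have e2 : ∑ i, (μ i : A) * (nx (t i) (l i) q * Pr t l p q i) ^ 2 *
      (-J * (nx (t i) (l i) q * Pr t l p q i)) = -J * s3 := by
    rw [hs3, Finset.mul_sum]
    exact Finset.sum_congr rfl fun i _ => by ring
  have e3 : ∑ i, (μ i : A) * (nx (t i) (l i) q * Pr t l p q i) *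
      (-J * (nx (t i) (l i) q * Pr t l p q i)) = -J * s2 := by
    rw [hs2, Finset.mul_sum]
    exact Finset.sum_congr rfl fun i _ => by ring
  rw [e1, e2, e3]
  linear_combination (-3 * J * c ^ 3 * s1 ^ 3 - 2 * J * c * s1 * s2) * hI
    + (J * c ^ 2 * s1 ^ 3) * h13

end defs

end AD

end BH
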