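import Mathlib
import Pool.Agent.Lib_helper64.BH.ADWeight

set_option autoImplicit false
set_option maxSynthPendingDepth 8
set_option linter.unusedSectionVars false

namespace BH

namespace AD

open Complex Polynomial

abbrev R2 := Polynomial (Polynomial ℂ)
abbrev R3 := Polynomial (Polynomial (Polynomial ℂ))

section ev

variable {B : Type*} [CommRing B] [Algebra ℂ B]

/-- evaluation of `ℂ[q][p]` -/
noncomputable def ev2 (p q : B) : R2 →ₐ[ℂ] B :=
  Polynomial.eval₂AlgHom (Polynomial.aeval q) p (fun _ => Commute.all _ _)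

/-- evaluation of `ℂ[q][p][y]` -/
noncomputable def ev3 (p q y : B) : R3 →ₐ[ℂ] B :=
  Polynomial.eval₂AlgHom (ev2 p q) y (fun _ => Commute.all _ _)

@[simp] theorem ev2_X (p q : B) : ev2 p q X = p := by simp [ev2]
@[simp] theorem ev2_CX (p q : B) : ev2 p q (C X) = q := by simp [ev2]
@[simp] theorem ev3_X (p q y : B) : ev3 p q y X = y := by simp [ev3]
@[simp] theorem ev3_C (p q y : B) (a : R2) : ev3 p q y (C a) = ev2 p q a := by simp [ev3]

theorem ev3_apply (p q y : B) (f : R3) : ev3 p q y f = f.eval₂ (ev2 p q : R2 →+* B) y := by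
  simp [ev3]

theorem hom2_ext {φ ψ : R2 →ₐ[ℂ] B} (h1 : φ X = ψ X) (h2 : φ (C X) = ψ (C X)) : φ = ψ := by
  apply AlgHom.ext
  intro f
  induction f using Polynomial.induction_on' with
  | add f g hf hg => rw [map_add, map_add, hf, hg]
  | monomial n a =>
    have ha : φ (C a) = ψ (C a) := by
      induction a using Polynomial.induction_on' with
      | add f g hf hg => rw [C_add, map_add, map_add, hf, hg]
      | monomial n a =>
        rw [← C_mul_X_pow_eq_monomial, C_mul, C_pow, map_mul, map_mul, map_pow, map_pow, h2]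
        have : (C (C a) : R2) = algebraMap ℂ R2 a := rfl
        rw [this, AlgHom.commutes, AlgHom.commutes]
    rw [← C_mul_X_pow_eq_monomial, map_mul, map_mul, map_pow, map_pow, h1, ha]

theorem hom3_ext {φ ψ : R3 →ₐ[ℂ] B} (h1 : φ X = ψ X) (h2 : φ (C X) = ψ (C X))
    (h3 : φ (C (C X)) = ψ (C (C X))) : φ = ψ := by
  have h : φ.comp (Algebra.ofId R2 R3 |>.restrictScalars ℂ) =
      ψ.comp (Algebra.ofId R2 R3 |>.restrictScalars ℂ) := hom2_ext h2 h3
  apply AlgHom.ext
  intro f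
  induction f using Polynomial.induction_on' with
  | add f g hf hg => rw [map_add, map_add, hf, hg]
  | monomial n a =>
    have ha : φ (C a) = ψ (C a) := DFunLike.congr_fun h a
    rw [← C_mul_X_pow_eq_monomial, map_mul, map_mul, map_pow, map_pow, h1, ha]

end ev

section deg

variable {A : Type*} [CommRing A] [Algebra ℂ A] {ι : Type*} [Fintype ι] [DecidableEq ι]

/-- degree bound predicate -/
def DB (d : ℕ) (x : A[X]) : Prop := x.natDegree ≤ d

theorem DB.mono {d e : ℕ} {x : A[X]} (h : DB d x) (hde : d ≤ e) : DB e x := le_trans h hde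

theorem DB.add {d : ℕ} {x y : A[X]} (hx : DB d x) (hy : DB d y) : DB d (x + y) :=
  natDegree_add_le_of_degree_le hx hy

theorem DB.sub {d : ℕ} {x y : A[X]} (hx : DB d x) (hy : DB d y) : DB d (x - y) :=
  (natDegree_sub_le x y).trans (max_le hx hy)

theorem DB.mul {d e : ℕ} {x y : A[X]} (hx : DB d x) (hy : DB e y) : DB (d + e) (x * y) :=
  natDegree_mul_le_of_le hx hy

theorem DB.pow {d : ℕ} {x : A[X]} (hx : DB d x) (n : ℕ) : DB (n * d) (x ^ n) :=
  natDegree_pow_le_of_le n hx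

theorem DB.sum {κ : Type*} {s : Finset κ} {f : κ → A[X]} {d : ℕ} (h : ∀ i ∈ s, DB d (f i)) :
    DB d (∑ i ∈ s, f i) := natDegree_sum_le_of_forall_le s f h

theorem DB.prod {κ : Type*} {s : Finset κ} {f : κ → A[X]} {d : ℕ} (h : ∀ i ∈ s, DB d (f i)) :
    DB (s.card * d) (∏ i ∈ s, f i) := by
  refine (natDegree_prod_le s f).trans ?_
  rw [← smul_eq_mul, ← Finset.sum_const]
  exact Finset.sum_le_sum h

theorem DB.alg (a : ℂ) : DB 0 (algebraMap ℂ A[X] a) := by
  have : algebraMap ℂ A[X] a = C (algebraMap ℂ A a) := rfl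
  rw [this]; exact (natDegree_C _).le

theorem DB.nat (n : ℕ) : DB 0 (n : A[X]) := (natDegree_natCast n).le

theorem DB.ofNat (n : ℕ) [n.AtLeastTwo] : DB 0 (OfNat.ofNat n : A[X]) := by
  have := DB.nat (A := A) n
  exact (natDegree_natCast n).le

theorem DB.one : DB 0 (1 : A[X]) := natDegree_one.le

theorem DB.Xq (q : A) : DB 1 (C q * X) := (natDegree_C_mul_le _ _).trans natDegree_X_le

theorem DB.C' (q : A) : DB 0 (C q) := (natDegree_C q).le

theorem DB.Yq (y : A) : DB 2 (C y * X ^ 2) := natDegree_C_mul_X_pow_le y 2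

theorem DB_Bx (t l : ℝ) (p q : A) : DB 1 (Bx t l (C p) (C q * X)) := by
  unfold Bx
  refine DB.add (DB.add ?_ ?_) ?_
  · exact ((DB.alg _).mul ((((DB.C' p).mul (DB.Xq q)).mono (show _ ≤ 1 by norm_num)).sub
      (DB.one.mono (by norm_num)))).mono (by norm_num)
  · exact ((DB.alg _).mul (DB.C' p)).mono (by norm_num)
  · exact ((DB.alg _).mul (DB.Xq q)).mono (by norm_num)

theorem DB_nx (t l : ℝ) (q : A) : DB 2 (nx t l (C q * X)) := by
  unfold nx
  refine DB.sub (DB.add ?_ ?_) ?_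
  · exact (DB.alg _).mono (by norm_num)
  · exact (((DB.ofNat 2).mul (DB.alg _)).mul (DB.Xq q)).mono (by norm_num)
  · exact ((DB.alg _).mul ((DB.Xq q).pow 2)).mono (by norm_num)

theorem DB_mx (t l : ℝ) (p : A) : DB 0 (mx t l (C p)) := by
  unfold mx
  refine DB.sub (DB.add ?_ ?_) ?_
  · exact (DB.alg _)
  · exact (((DB.ofNat 2).mul (DB.alg _)).mul (DB.C' p))
  · exact ((DB.alg _).mul ((DB.C' p).pow 2)).mono (by norm_num)

theorem DB_sx (t l : ℝ) (p q y : A) : DB 2 (sx t l (C p) (C q * X) (C y * X ^ 2)) :=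
  (DB_nx t l q).add (((DB_mx t l p).mul (DB.Yq y)).mono (by norm_num))

theorem DB_tx (t l : ℝ) (p q y : A) : DB 2 (tx t l (C p) (C q * X) (C y * X ^ 2)) :=
  (DB_nx t l q).sub (((DB_mx t l p).mul (DB.Yq y)).mono (by norm_num))

theorem DB_Pr (t l : ι → ℝ) (p q : A) (i : ι) :
    DB (Fintype.card ι - 1) (Pr t l (C p) (C q * X) i) := by
  have := DB.prod (s := Finset.univ.erase i)
    (f := fun j => Bx (t j) (l j) (C p) (C q * X)) (d := 1) (fun j _ => DB_Bx _ _ p q)
  rw [Finset.card_erase_of_mem (Finset.mem_univ i), mul_one] at this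
  exact this

theorem DB_Kx (μ : ι → ℕ) (t l : ι → ℝ) (p q y : A) (hc : 1 ≤ Fintype.card ι) :
    DB (Fintype.card ι + 1) (Kx μ t l (C p) (C q * X) (C y * X ^ 2)) := by
  unfold Kx
  refine ((DB.alg _).mul (DB.sum fun i _ => ((DB.nat _).mul
    ((DB_tx _ _ p q y).mul (DB_Pr t l p q i))))).mono ?_
  omega

theorem DB_Px (μ : ι → ℕ) (t l : ι → ℝ) (p q y : A) (hc : 1 ≤ Fintype.card ι) :
    DB (3 * Fintype.card ι + 3) (Px μ t l (C p) (C q * X) (C y * X ^ 2)) := by
  have hK := DB_Kx μ t l p q y hc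
  have hs : ∀ i, DB (Fintype.card ι + 1) (sx (t i) (l i) (C p) (C q * X) (C y * X ^ 2) *
      Pr t l (C p) (C q * X) i) := fun i =>
    ((DB_sx _ _ p q y).mul (DB_Pr t l p q i)).mono (by omega)
  have ht : ∀ i, DB (Fintype.card ι + 1) (algebraMap ℂ A[X] (-I) *
      (tx (t i) (l i) (C p) (C q * X) (C y * X ^ 2) * Pr t l (C p) (C q * X) i)) := fun i =>
    ((DB.alg _).mul ((DB_tx _ _ p q y).mul (DB_Pr t l p q i))).mono (by omega)
  have hB : DB (Fintype.card ι) (∏ i, Bx (t i) (l i) (C p) (C q * X)) := by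
    have := DB.prod (s := (Finset.univ : Finset ι))
      (f := fun j => Bx (t j) (l j) (C p) (C q * X)) (d := 1) (fun j _ => DB_Bx _ _ p q)
    rwa [Finset.card_univ, mul_one] at this
  unfold Px
  refine DB.add (DB.sub (DB.add (DB.sub (DB.sub ?_ ?_) ?_) ?_) ?_) ?_
  · refine ((((DB.ofNat 2).mul (DB.sum fun i _ => DB.nat (μ i))).add (DB.ofNat 3)).mul
      (((DB.ofNat 4).mul (hB.pow 2)).mul (DB.Yq y))).mul hK |>.mono ?_
    omega
  · exact ((DB.ofNat 3).mul (hK.pow 3)).mono (by omega)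
  · refine (((DB.ofNat 2).mul hK).mul (DB.sum fun i _ => (DB.nat (μ i)).mul
      ((ht i).pow 2))).mono ?_
    omega
  · refine (hK.mul (DB.sum fun i _ => (DB.nat (μ i)).mul ((hs i).pow 2))).mono ?_
    omega
  · refine (DB.sum fun i _ => ((DB.nat (μ i)).mul ((hs i).pow 2)).mul (ht i)).mono ?_
    omega
  · refine (((DB.alg _).mul (((DB.sum fun i _ => ((DB.nat (μ i)).mul (hs i)).mul (ht i)).mono
      (show _ ≤ 2 * Fintype.card ι + 2 by omega)).sub
      ((hK.mul (DB.sum fun i _ => (DB.nat (μ i)).mul (hs i))).mono (by omega)))).mul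
      (DB.sum fun i _ => (DB.nat (μ i)).mul (hs i))).mono ?_
    omega

end deg

end AD

end BH
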