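import Mathlib
import Pool.Agent.Lib_helper64.BH.ADWeight2

set_option autoImplicit false
set_option maxSynthPendingDepth 8
set_option linter.unusedSectionVars false

namespace BH

namespace AD

open Complex Polynomial

variable {K : Type*} [Field K] [Algebra ℂ K] (δ : Derivation ℂ K K)

theorem ev2_CC (p q : K) (a : ℂ[X]) : ev2 p q (C a) = aeval q a := by simp [ev2]

theorem exists_D2 (p q y c : K) (W : R2) (hp : c * δ p = ev2 p q W)
    (hq : c * δ q = ev2 p q W * y) (r : R2) :
    ∃ r' : R2, c * δ (ev2 p q r) = ev2 p q (W * derivative r) + y * ev2 p q r' := by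
  induction r using Polynomial.induction_on' with
  | add f g hf hg =>
    obtain ⟨f', hf'⟩ := hf
    obtain ⟨g', hg'⟩ := hg
    refine ⟨f' + g', ?_⟩
    rw [map_add, map_add, mul_add, hf', hg', derivative_add, mul_add, map_add, map_add]
    ring
  | monomial n a =>
    refine ⟨W * C (derivative a) * X ^ n, ?_⟩
    rw [← C_mul_X_pow_eq_monomial, derivative_C_mul_X_pow]
    simp only [map_mul, map_pow, ev2_X, ev2_CC, map_natCast]
    rw [Derivation.leibniz, Derivation.leibniz_pow, Derivation.map_aeval]
    simp only [smul_eq_mul, nsmul_eq_mul]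
    linear_combination (aeval q a * n * p ^ (n - 1)) * hp + (p ^ n * aeval q (derivative a)) * hq

theorem exists_D3 (p q y c : K) (W : R2) (V : R3) (hp : c * δ p = ev2 p q W)
    (hq : c * δ q = ev2 p q W * y) (hy : c * δ y = y * ev3 p q y V) (f : R3) :
    ∃ g : R3, c * δ (ev3 p q y f) = ev3 p q y g ∧ g.coeff 0 = W * derivative (f.coeff 0) := by
  induction f using Polynomial.induction_on' with
  | add f g hf hg =>
    obtain ⟨f', hf', hf0⟩ := hf
    obtain ⟨g', hg', hg0⟩ := hg
    refine ⟨f' + g', ?_, ?_⟩
    · rw [map_add, map_add, mul_add, hf', hg', map_add]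
    · rw [coeff_add, coeff_add, derivative_add, hf0, hg0, mul_add]
  | monomial n a =>
    obtain ⟨a', ha'⟩ := exists_D2 δ p q y c W hp hq a
    refine ⟨(C (W * derivative a) + X * C a') * X ^ n + (n : R3) * C a * X ^ n * V, ?_, ?_⟩
    · rw [← C_mul_X_pow_eq_monomial]
      simp only [map_add, map_mul, map_pow, ev3_X, ev3_C, map_natCast]
      rw [map_mul] at ha'
      rw [Derivation.leibniz, Derivation.leibniz_pow]
      simp only [smul_eq_mul, nsmul_eq_mul]
      rcases n with _ | n
      · simp only [Nat.cast_zero, zero_mul, mul_zero, pow_zero, one_mul, mul_one, add_zero]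
        linear_combination ha'
      · simp only [Nat.add_sub_cancel]
        rw [pow_succ]
        linear_combination (y ^ n * y) * ha' + (ev2 p q a * ((n + 1 : ℕ) : K) * y ^ n) * hy
    · rcases n with _ | n
      · simp
      · have h1 : ((monomial (n + 1) a : R3)).coeff 0 = 0 := by
          rw [coeff_monomial]; simp
        rw [h1, derivative_zero, mul_zero, pow_succ]
        have h2 : ∀ z : R3, (z * X).coeff 0 = 0 := fun z => coeff_mul_X_zero z
        have h3 : (C (W * derivative a) + X * C a') * (X ^ n * X) +
            ((n + 1 : ℕ) : R3) * C a * (X ^ n * X) * V =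
            ((C (W * derivative a) + X * C a') * X ^ n +
              ((n + 1 : ℕ) : R3) * C a * X ^ n * V) * X := by ring
        rw [h3, h2]

end AD

end BH
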