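import Mathlib

set_option autoImplicit false

namespace BH

namespace AD

open Polynomial

/-- a prime generator of the ideal of polynomial relations -/
theorem exists_prime_gen {R K : Type*} [CommRing R] [IsDomain R] [UniqueFactorizationMonoid R]
    [Field K] (ρ : R →+* K) (hρ : Function.Injective ρ) (y : K) (P : R[X]) (hP : P ≠ 0)
    (h : P.eval₂ ρ y = 0) :
    ∃ f : R[X], Prime f ∧ f.eval₂ ρ y = 0 ∧ f.natDegree ≠ 0 ∧ ∀ g : R[X], g.eval₂ ρ y = 0 → f ∣ g := by
  classical
  let ev : R[X] →+* K := eval₂RingHom ρ y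
  have hbot : RingHom.ker ev ≠ ⊥ := by
    intro hb
    have : P ∈ RingHom.ker ev := h
    rw [hb] at this
    exact hP this
  have hprime : (RingHom.ker ev).IsPrime := RingHom.ker_isPrime ev
  obtain ⟨f, hf, hfp⟩ := hprime.exists_mem_prime_of_ne_bot hbot
  have hf0 : f.eval₂ ρ y = 0 := hf
  have hdeg : f.natDegree ≠ 0 := by
    intro h0
    rw [eq_C_of_natDegree_eq_zero h0] at hf0
    rw [eval₂_C] at hf0
    have h1 : f.coeff 0 = 0 := hρ (by rw [hf0, map_zero])
    apply hfp.ne_zero
    rw [eq_C_of_natDegree_eq_zero h0, h1, map_zero]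
  refine ⟨f, hfp, hf0, hdeg, fun g hg => ?_⟩
  have hprim : f.IsPrimitive := hfp.irreducible.isPrimitive hdeg
  let F := FractionRing R
  refine hprim.dvd_of_fraction_map_dvd_fraction_map (K := F) ?_
  have hirr : Irreducible (f.map (algebraMap R F)) :=
    (hprim.irreducible_iff_irreducible_map_fraction_map (K := F)).1 hfp.irreducible
  by_contra hnd
  have hcop : IsCoprime (f.map (algebraMap R F)) (g.map (algebraMap R F)) :=
    (hirr.coprime_iff_not_dvd).2 hnd
  obtain ⟨a, b, hab⟩ := hcop
  let ρ' : F →+* K := IsFractionRing.lift hρ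
  have hcomp : ρ'.comp (algebraMap R F) = ρ := by
    ext x
    exact IsFractionRing.lift_algebraMap hρ x
  have h1 := congrArg (eval₂ ρ' y) hab
  rw [eval₂_add, eval₂_mul, eval₂_mul, eval₂_map, eval₂_map, hcomp, hf0, hg, mul_zero, mul_zero,
    add_zero, eval₂_one] at h1
  exact zero_ne_one h1

end AD

end BH
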