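import Mathlib
import Pool.Agent.Lib_helper64.BH.ADWeight2

set_option autoImplicit false
set_option maxSynthPendingDepth 8
set_option linter.unusedSectionVars false

namespace BH

namespace AD

open Complex Polynomial

variable {ι : Type*} [Fintype ι] [DecidableEq ι]

/-- `x` has degree at most `d` with coefficient `c` in degree `d` -/
def TC (d : ℕ) (c : ℂ) (x : ℂ[X]) : Prop := x.natDegree ≤ d ∧ x.coeff d = c

theorem TC.mul {d e : ℕ} {a b : ℂ} {x y : ℂ[X]} (hx : TC d a x) (hy : TC e b y) :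
    TC (d + e) (a * b) (x * y) :=
  ⟨natDegree_mul_le_of_le hx.1 hy.1, by rw [coeff_mul_add_eq_of_natDegree_le hx.1 hy.1, hx.2, hy.2]⟩

theorem TC.pow {d : ℕ} {a : ℂ} {x : ℂ[X]} (hx : TC d a x) (n : ℕ) : TC (n * d) (a ^ n) (x ^ n) := by
  induction n with
  | zero => exact ⟨by simp, by simp⟩
  | succ n ih =>
    rw [pow_succ, pow_succ, add_mul, one_mul]
    exact ih.mul hx

theorem TC.sum {d : ℕ} {a : ι → ℂ} {x : ι → ℂ[X]} (h : ∀ i, TC d (a i) (x i)) :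
    TC d (∑ i, a i) (∑ i, x i) :=
  ⟨natDegree_sum_le_of_forall_le _ _ fun i _ => (h i).1, by
    rw [finsetSum_coeff]; exact Finset.sum_congr rfl fun i _ => (h i).2⟩

theorem TC.prod {s : Finset ι} {a : ι → ℂ} {x : ι → ℂ[X]} (h : ∀ i, TC 1 (a i) (x i)) :
    TC s.card (∏ i ∈ s, a i) (∏ i ∈ s, x i) := by
  induction s using Finset.induction_on with
  | empty => exact ⟨by simp, by simp⟩
  | insert i s hi ih =>
    rw [Finset.prod_insert hi, Finset.prod_insert hi, Finset.card_insert_of_notMem hi, add_comm]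
    exact (h i).mul ih

theorem TC.nat (n : ℕ) : TC 0 (n : ℂ) (n : ℂ[X]) := ⟨(natDegree_natCast n).le, by simp⟩

theorem TC.alg (a : ℂ) : TC 0 a (algebraMap ℂ ℂ[X] a) :=
  ⟨(natDegree_C a).le, by simp⟩

theorem TC_Bx (t l : ℝ) : TC 1 (1 + I * t) (Bx t l (0 : ℂ[X]) X) := by
  have h : Bx t l (0 : ℂ[X]) X = C (1 + I * t) * X + C (-(l : ℂ)) := by
    simp [Bx]
    ring
  rw [h]
  refine ⟨natDegree_linear_le, by simp⟩

theorem TC_nx (t l : ℝ) : TC 2 (-(1 + I * t)) (nx t l (X : ℂ[X])) := by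
  have h : nx t l (X : ℂ[X]) = C (-(1 + I * t)) * X ^ 2 + C (2 * (l : ℂ)) * X + C (1 - I * t) := by
    simp only [nx, Polynomial.algebraMap_apply, Algebra.algebraMap_self, RingHom.id_apply, C_neg,
      C_mul, C_add, C_sub, C_ofNat]
    ring
  rw [h]
  refine ⟨natDegree_quadratic_le, ?_⟩
  rw [coeff_add, coeff_add, coeff_C_mul_X_pow, coeff_C_mul_X, coeff_C]
  simp

theorem one_add_ne (t : ℝ) : (1 : ℂ) + I * t ≠ 0 := by
  intro h
  have := congrArg Complex.re h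
  simp at this

theorem TC_Gx (μ : ι → ℕ) (t l : ι → ℝ) (hc : 1 ≤ Fintype.card ι) :
    TC (3 * Fintype.card ι + 3)
      (-((∏ i, (1 + I * (t i : ℂ))) ^ 3 * ((∑ i, (μ i : ℂ)) + 2 / 3 * (∑ i, (μ i : ℂ)) ^ 2)))
      (Gx μ t l (0 : ℂ[X]) X) := by
  have h1 : ∀ i, TC (Fintype.card ι + 1) (-∏ i, (1 + I * (t i : ℂ)))
      (nx (t i) (l i) (X : ℂ[X]) * Pr t l 0 X i) := by
    intro i
    have h2 := (TC_nx (t i) (l i)).mul (TC.prod (s := Finset.univ.erase i)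
      (fun j => TC_Bx (t j) (l j)))
    rw [Finset.card_erase_of_mem (Finset.mem_univ i), Finset.card_univ] at h2
    have h3 : 2 + (Fintype.card ι - 1) = Fintype.card ι + 1 := by omega
    rw [h3, neg_mul, Finset.mul_prod_erase _ (fun j => 1 + I * (t j : ℂ)) (Finset.mem_univ i)] at h2
    exact h2
  have s1 := TC.sum fun i => (TC.nat (μ i)).mul (h1 i)
  have s2 := TC.sum fun i => (TC.nat (μ i)).mul ((h1 i).pow 2)
  have s3 := TC.sum fun i => (TC.nat (μ i)).mul ((h1 i).pow 3)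
  have s12 := ((TC.alg (2 / 3)).mul s1).mul s2
  have e1 : 0 + 3 * (Fintype.card ι + 1) = 3 * Fintype.card ι + 3 := by ring
  have e2 : 0 + (0 + (Fintype.card ι + 1)) + (0 + 2 * (Fintype.card ι + 1)) =
      3 * Fintype.card ι + 3 := by ring
  rw [e1] at s3
  rw [e2] at s12
  refine ⟨natDegree_add_le_of_degree_le s3.1 s12.1, ?_⟩
  unfold Gx
  rw [coeff_add, s3.2, s12.2, ← Finset.sum_mul, ← Finset.sum_mul, ← Finset.sum_mul]
  ring

theorem coeff_Gx_ne (μ : ι → ℕ) (hμ : ∀ i, 0 < μ i) (t l : ι → ℝ) (hc : 1 ≤ Fintype.card ι) :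
    (Gx μ t l (0 : ℂ[X]) X).coeff (3 * Fintype.card ι + 3) ≠ 0 := by
  rw [(TC_Gx μ t l hc).2, neg_ne_zero]
  refine mul_ne_zero (pow_ne_zero _ (Finset.prod_ne_zero_iff.2 fun i _ => one_add_ne _)) ?_
  have : Nonempty ι := Fintype.card_pos_iff.1 (by omega)
  have hpos : 0 < ∑ i, μ i := Finset.sum_pos (fun i _ => hμ i) Finset.univ_nonempty
  have h2 : (∑ i, (μ i : ℂ)) + 2 / 3 * (∑ i, (μ i : ℂ)) ^ 2 =
      (((∑ i, μ i : ℕ) : ℝ) + 2 / 3 * ((∑ i, μ i : ℕ) : ℝ) ^ 2 : ℝ) := by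
    push_cast; ring
  rw [h2]
  have h3 : (0 : ℝ) < ((∑ i, μ i : ℕ) : ℝ) := by exact_mod_cast hpos
  exact_mod_cast (by positivity : (0 : ℝ) < ((∑ i, μ i : ℕ) : ℝ) + 2 / 3 * ((∑ i, μ i : ℕ) : ℝ) ^ 2).ne'

/-- the weight homomorphism `p ↦ p`, `q ↦ q s`, `y ↦ y s²` -/
noncomputable def Wt : R3 →ₐ[ℂ] R3[X] :=
  ev3 (C (C X)) (C (C (C X)) * X) (C X * X ^ 2)

/-- `p = 0`, `y = 0`, `q = X` -/
noncomputable def W0 : R3 →ₐ[ℂ] ℂ[X] := ev3 0 X 0

/-- `p = 0`, `q = 1`, `y = 0` -/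
noncomputable def E0 : R3 →ₐ[ℂ] ℂ := ev3 0 1 0

theorem map_Wt (f : R3) : (Wt f).map (E0 : R3 →+* ℂ) = W0 f := by
  have : (mapAlgHom E0).comp Wt = W0 := by
    apply hom3_ext
    · simp [Wt, W0, E0]
    · simp [Wt, W0, E0]
    · simp [Wt, W0, E0]
  exact DFunLike.congr_fun this f

/-- `s = 1` gives the identity -/
theorem Wt_one (f : R3) : (Wt f).eval 1 = f := by
  have : ((Polynomial.aeval (R := R3) (1 : R3)).restrictScalars ℂ).comp Wt = AlgHom.id ℂ R3 := by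
    apply hom3_ext
    · simp [Wt]
    · simp [Wt]
    · simp [Wt]
  have h := DFunLike.congr_fun this f
  simpa [Polynomial.aeval_def] using h

theorem Wt_zero (f : R3) : (Wt f).eval 0 = C (ev2 X 0 (f.coeff 0)) := by
  have : ((Polynomial.aeval (R := R3) (0 : R3)).restrictScalars ℂ).comp Wt =
      ((Algebra.ofId R2 R3).restrictScalars ℂ).comp ((ev3 X 0 0 : R3 →ₐ[ℂ] R2)) := by
    apply hom3_ext
    · simp [Wt]
    · simp [Wt, Algebra.ofId_apply]
    · simp [Wt]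
  have h := DFunLike.congr_fun this f
  have h2 : (ev3 X 0 0 : R3 →ₐ[ℂ] R2) f = ev2 X 0 (f.coeff 0) := by
    rw [ev3_apply, eval₂_at_zero]; rfl
  have h3 : (((Algebra.ofId R2 R3).restrictScalars ℂ).comp ((ev3 X 0 0 : R3 →ₐ[ℂ] R2))) f =
      C ((ev3 X 0 0 : R3 →ₐ[ℂ] R2) f) := rfl
  rw [h3, h2] at h
  rw [← h]
  simp

/-- the main weight statement -/
theorem natDegree_eq_zero_of_factor (μ : ι → ℕ) (hμ : ∀ i, 0 < μ i) (t l : ι → ℝ)
    (hc : 1 ≤ Fintype.card ι) (f g : R3)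
    (hfg : f * g = Px μ t l (C X : R3) (C (C X)) X) (hu : IsUnit (f.coeff 0)) : f.natDegree = 0 := by
  have hP : W0 (Px μ t l (C X : R3) (C (C X)) X) = C I * Gx μ t l 0 X := by
    rw [map_Px]
    simp only [W0, ev3_C, ev3_X, ev2_X, ev2_CX]
    rw [Px_zero]; rfl
  have hPc : (W0 (Px μ t l (C X : R3) (C (C X)) X)).coeff (3 * Fintype.card ι + 3) ≠ 0 := by
    rw [hP, coeff_C_mul]
    exact mul_ne_zero I_ne_zero (coeff_Gx_ne μ hμ t l hc)
  have hPne : W0 (Px μ t l (C X : R3) (C (C X)) X) ≠ 0 := by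
    intro h; rw [h] at hPc; simp at hPc
  have hdegP : (Wt (Px μ t l (C X : R3) (C (C X)) X)).natDegree ≤ 3 * Fintype.card ι + 3 := by
    rw [map_Px]
    simp only [Wt, ev3_C, ev3_X, ev2_X, ev2_CX]
    exact DB_Px μ t l _ _ _ hc
  have hle : ∀ x : R3, (W0 x).natDegree ≤ (Wt x).natDegree := by
    intro x; rw [← map_Wt]; exact natDegree_map_le
  have hf0 : (W0 f).natDegree = 0 := by
    have h1 : W0 f = ev2 (0 : ℂ[X]) X (f.coeff 0) := by
      unfold W0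
      rw [ev3_apply, eval₂_at_zero]; rfl
    rw [h1]
    exact natDegree_eq_zero_of_isUnit (hu.map (ev2 (0 : ℂ[X]) X))
  have h0 : W0 f * W0 g ≠ 0 := by rw [← map_mul, hfg]; exact hPne
  have hf1 : W0 f ≠ 0 := left_ne_zero_of_mul h0
  have hg1 : W0 g ≠ 0 := right_ne_zero_of_mul h0
  have hWne : ∀ x : R3, W0 x ≠ 0 → Wt x ≠ 0 := by
    intro x hx h; apply hx; rw [← map_Wt, h, Polynomial.map_zero]
  have h1 : (W0 f).natDegree + (W0 g).natDegree ≥ 3 * Fintype.card ι + 3 := by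
    rw [← natDegree_mul hf1 hg1, ← map_mul, hfg]
    exact le_natDegree_of_ne_zero hPc
  have h2 : (Wt f).natDegree + (Wt g).natDegree ≤ 3 * Fintype.card ι + 3 := by
    rw [← natDegree_mul (hWne f hf1) (hWne g hg1), ← map_mul, hfg]
    exact hdegP
  have h3 := hle g
  have h4 : (Wt f).natDegree = 0 := by omega
  have h5 := eq_C_of_natDegree_eq_zero h4
  have h6 : f = C (ev2 X 0 (f.coeff 0)) := by
    calc f = (Wt f).eval 1 := (Wt_one f).symm
      _ = (Wt f).eval 0 := by rw [h5, eval_C, eval_C]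
      _ = _ := Wt_zero f
  rw [h6, natDegree_C]

end AD

end BH
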