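import Mathlib
import Pool.Agent.Lib_helper64.BH.ADDeriv
import Pool.Agent.Lib_helper64.BH.ADGauss
import Pool.Agent.Lib_helper64.BH.ADWeight3
import Pool.Agent.Lib_helper71.BH.ADUnitA

set_option autoImplicit false
set_option maxSynthPendingDepth 8
set_option linter.unusedSectionVars false

namespace BH

namespace AD

open Complex Polynomial

theorem ev2_injective {K : Type*} [Field K] [Algebra ℂ K] {p q : K}
    (h : AlgebraicIndependent ℂ ![p, q]) : Function.Injective (ev2 p q) := by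
  let φ : R2 →ₐ[ℂ] MvPolynomial (Fin 2) ℂ := ev2 (MvPolynomial.X 0) (MvPolynomial.X 1)
  let ψ : MvPolynomial (Fin 2) ℂ →ₐ[ℂ] R2 := MvPolynomial.aeval ![X, C X]
  have h1 : (MvPolynomial.aeval ![p, q]).comp φ = ev2 p q := by
    apply hom2_ext
    · simp [φ]
    · simp [φ]
  have h2 : ψ.comp φ = AlgHom.id ℂ R2 := by
    apply hom2_ext
    · simp [φ, ψ]
    · simp [φ, ψ]
  have h3 : Function.Injective φ := by
    intro x y hxy
    have e1 := DFunLike.congr_fun h2 x
    have e2 := DFunLike.congr_fun h2 y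
    simp only [AlgHom.comp_apply, AlgHom.id_apply] at e1 e2
    rw [← e1, ← e2, hxy]
  rw [← h1]
  have h4 : Function.Injective (MvPolynomial.aeval ![p, q] : MvPolynomial (Fin 2) ℂ →ₐ[ℂ] K) := h
  exact h4.comp h3

variable {ι : Type*} [Fintype ι] [DecidableEq ι]

theorem coeff_zero_eq (f : R3) : f.coeff 0 = (ev3 X (C X) 0 : R3 →ₐ[ℂ] R2) f := by
  have h : (ev2 X (C X) : R2 →ₐ[ℂ] R2) = AlgHom.id ℂ R2 := by
    apply hom2_ext <;> simp
  rw [ev3_apply, eval₂_at_zero, h]; rfl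

theorem Px_coeff_zero (μ : ι → ℕ) (t l : ι → ℝ) :
    (Px μ t l (C X : R3) (C (C X)) X).coeff 0 = C (C I) * Gx μ t l (X : R2) (C X) := by
  rw [coeff_zero_eq, map_Px]
  simp only [ev3_C, ev3_X, ev2_X, ev2_CX]
  rw [Px_zero]; rfl

theorem Gx_ne_zero (μ : ι → ℕ) (hμ : ∀ i, 0 < μ i) (t l : ι → ℝ) (hc : 1 ≤ Fintype.card ι) :
    Gx μ t l (X : R2) (C X) ≠ 0 := by
  intro h
  have h1 := coeff_Gx_ne μ hμ t l hc
  have h2 := congrArg (ev2 (0 : ℂ[X]) X) h
  rw [map_Gx, map_zero] at h2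
  simp only [ev2_X, ev2_CX] at h2
  rw [h2] at h1
  simp at h1

end AD

open AD Polynomial in
/-- Module A: `p, q` are algebraically dependent. The index set is the set of distinct pairs
`(t i, l i)` of real initial values, with multiplicities `μ i`. -/
theorem alg_dep {K : Type*} [Field K] [Algebra ℂ K] (δ : Derivation ℂ K K)
    {ι : Type*} [Fintype ι] [DecidableEq ι] (μ : ι → ℕ) (hμ : ∀ i, 0 < μ i)
    (t l : ι → ℝ) (hinj : ∀ i j, t i = t j → l i = l j → i = j) (hcard : 2 ≤ Fintype.card ι)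
    (J : K) (hJ : J = algebraMap ℂ K Complex.I)
    (p q Ψ Ψi κ : K) (B ν νt θ lam : ι → K)
    (hΨ : Ψ * Ψi = 1)
    (hp : δ p = (1 + p * q) * Ψ / 2) (hq : δ q = (1 + p * q) * Ψi / 2)
    (hΨ' : δ Ψ = Ψ * (J * κ + (q * Ψ - p * Ψi) / 2))
    (hBdef : ∀ i, B i = algebraMap ℂ K (l i) * (p * q - 1)
        + algebraMap ℂ K (1 - Complex.I * t i) * p + algebraMap ℂ K (1 + Complex.I * t i) * q)
    (hν : ∀ i, ν i = algebraMap ℂ K (1 - Complex.I * t i) + 2 * algebraMap ℂ K (l i) * q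
        - algebraMap ℂ K (1 + Complex.I * t i) * q ^ 2)
    (hνt : ∀ i, νt i = algebraMap ℂ K (1 + Complex.I * t i) + 2 * algebraMap ℂ K (l i) * p
        - algebraMap ℂ K (1 - Complex.I * t i) * p ^ 2)
    (hB : ∀ i, B i ≠ 0)
    (hθ : ∀ i, 2 * B i * θ i = ν i * Ψ + νt i * Ψi)
    (hlam : ∀ i, 2 * B i * lam i = - J * (ν i * Ψ - νt i * Ψi))
    (E1 : ∑ i, (μ i : K) * lam i = -3 * κ)
    (star : (2 * (∑ i, (μ i : K)) + 3) * κ - 3 * κ ^ 3 - 2 * κ * (∑ i, (μ i : K) * lam i ^ 2)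
        + κ * (∑ i, (μ i : K) * θ i ^ 2) - (∑ i, (μ i : K) * θ i ^ 2 * lam i)
        + ((∑ i, (μ i : K) * θ i * lam i) - κ * (∑ i, (μ i : K) * θ i)) / 3
          * (∑ i, (μ i : K) * θ i) = 0) :
    ¬ AlgebraicIndependent ℂ ![p, q] := by
  intro hAI
  have hinjρ := ev2_injective hAI
  have : CharZero K := charZero_of_injective_algebraMap (algebraMap ℂ K).injective
  have h3 : (3 : K) ≠ 0 := by norm_num
  have h2 : (2 : K) ≠ 0 := by norm_num
  have hJ2 : J ^ 2 = -1 := by rw [hJ, ← map_pow, Complex.I_sq]; simp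
  have hJ3 : algebraMap ℂ K (Complex.I / 3) = J / 3 := by
    rw [hJ, map_div₀, map_ofNat]
  have h13 : algebraMap ℂ K (1 / 3) = 1 / 3 := by
    rw [map_div₀, map_ofNat, map_one]
  have hmJ : algebraMap ℂ K (-Complex.I) = -J := by rw [hJ, map_neg]
  set y : K := Ψi ^ 2 with hy
  have hBx : ∀ i, Bx (t i) (l i) p q = B i := fun i => (hBdef i).symm
  have hnx : ∀ i, nx (t i) (l i) q = ν i := fun i => (hν i).symm
  have hmx : ∀ i, mx (t i) (l i) p = νt i := fun i => (hνt i).symm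
  set Pp : K := ∏ i, B i with hPp
  set c : K := 2 * Pp * Ψi with hc
  have hPr : ∀ i, B i * Pr t l p q i = Pp := by
    intro i
    unfold Pr
    simp only [hBx]
    exact Finset.mul_prod_erase _ B (Finset.mem_univ i)
  have hsx : ∀ i, sx (t i) (l i) p q y * Pr t l p q i = c * θ i := by
    intro i
    unfold sx
    rw [hnx, hmx]
    have e1 := hθ i
    have e2 := hPr i
    calc (ν i + νt i * y) * Pr t l p q i
        = (ν i * Ψ + νt i * Ψi) * Ψi * Pr t l p q i
          + (1 - Ψ * Ψi) * ν i * Pr t l p q i := by rw [hy]; ring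
      _ = (2 * B i * θ i) * Ψi * Pr t l p q i := by rw [hΨ, e1]; ring
      _ = 2 * (B i * Pr t l p q i) * Ψi * θ i := by ring
      _ = c * θ i := by rw [e2]
  have htx : ∀ i, -J * (tx (t i) (l i) p q y * Pr t l p q i) = c * lam i := by
    intro i
    unfold tx
    rw [hnx, hmx]
    have e1 := hlam i
    have e2 := hPr i
    calc -J * ((ν i - νt i * y) * Pr t l p q i)
        = (-J * (ν i * Ψ - νt i * Ψi)) * Ψi * Pr t l p q i
          - J * (1 - Ψ * Ψi) * ν i * Pr t l p q i := by rw [hy]; ring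
      _ = (2 * B i * lam i) * Ψi * Pr t l p q i := by rw [hΨ, e1]; ring
      _ = 2 * (B i * Pr t l p q i) * Ψi * lam i := by ring
      _ = c * lam i := by rw [e2]
  have htx' : ∀ i, tx (t i) (l i) p q y * Pr t l p q i = J * (c * lam i) := by
    intro i
    rw [← htx i]
    linear_combination (tx (t i) (l i) p q y * Pr t l p q i) * hJ2
  have hKx : Kx μ t l p q y = c * κ := by
    unfold Kx
    rw [hJ3]
    simp only [htx']
    have e1 : ∑ i, (μ i : K) * (J * (c * lam i)) = J * c * ∑ i, (μ i : K) * lam i := by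
      rw [Finset.mul_sum]; exact Finset.sum_congr rfl fun i _ => by ring
    rw [e1, E1]
    linear_combination (-(c * κ)) * hJ2
  have hc2 : 4 * (∏ i, Bx (t i) (l i) p q) ^ 2 * y = c ^ 2 := by
    simp only [hBx]
    rw [hc, hy, ← hPp]; ring
  -- the relation
  have hPK : Px μ t l p q y = 0 := by
    unfold Px
    rw [hc2, hKx, h13, hmJ]
    simp only [htx, hsx]
    have e1 : ∑ i, (μ i : K) * (c * lam i) ^ 2 = c ^ 2 * ∑ i, (μ i : K) * lam i ^ 2 := by
      rw [Finset.mul_sum]; exact Finset.sum_congr rfl fun i _ => by ring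
    have e2 : ∑ i, (μ i : K) * (c * θ i) ^ 2 = c ^ 2 * ∑ i, (μ i : K) * θ i ^ 2 := by
      rw [Finset.mul_sum]; exact Finset.sum_congr rfl fun i _ => by ring
    have e3 : ∑ i, (μ i : K) * (c * θ i) ^ 2 * (c * lam i) =
        c ^ 3 * ∑ i, (μ i : K) * θ i ^ 2 * lam i := by
      rw [Finset.mul_sum]; exact Finset.sum_congr rfl fun i _ => by ring
    have e4 : ∑ i, (μ i : K) * (c * θ i) * (c * lam i) =
        c ^ 2 * ∑ i, (μ i : K) * θ i * lam i := by
      rw [Finset.mul_sum]; exact Finset.sum_congr rfl fun i _ => by ring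
    have e5 : ∑ i, (μ i : K) * (c * θ i) = c * ∑ i, (μ i : K) * θ i := by
      rw [Finset.mul_sum]; exact Finset.sum_congr rfl fun i _ => by ring
    rw [e1, e2, e3, e4, e5]
    linear_combination c ^ 3 * star
  -- the polynomial
  set P : R3 := Px μ t l (C X : R3) (C (C X)) X with hP
  have hPev : ev3 p q y P = 0 := by
    rw [hP, map_Px]
    simp only [ev3_C, ev3_X, ev2_X, ev2_CX]
    exact hPK
  have hc1 : 1 ≤ Fintype.card ι := by omega
  have hG0 := Gx_ne_zero μ hμ t l hc1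
  have hCI : (C (C Complex.I) : R2) ≠ 0 := by
    simp
  have hP0 : P.coeff 0 ≠ 0 := by
    rw [hP, Px_coeff_zero]; exact mul_ne_zero hCI hG0
  have hPne : P ≠ 0 := by rintro h; rw [h] at hP0; simp at hP0
  obtain ⟨f, hfp, hf0, hfdeg, hfdvd⟩ := exists_prime_gen (ev2 p q : R2 →+* K) hinjρ y P hPne
    (by rw [← ev3_apply]; exact hPev)
  obtain ⟨g, hg⟩ := hfdvd P (by rw [← ev3_apply]; exact hPev)
  -- the derivative
  have hΨi0 : Ψi ≠ 0 := right_ne_zero_of_mul (hΨ.symm ▸ one_ne_zero)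
  have hδΨi : δ Ψi = -(Ψi * (J * κ + (q * Ψ - p * Ψi) / 2)) := by
    have e1 := congrArg δ hΨ
    rw [Derivation.leibniz, Derivation.map_one_eq_zero, hΨ'] at e1
    simp only [smul_eq_mul] at e1
    have e2 : Ψi * (Ψ * δ Ψi + Ψi * (Ψ * (J * κ + (q * Ψ - p * Ψi) / 2))) = 0 := by
      rw [e1, mul_zero]
    linear_combination e2 - (δ Ψi + Ψi * (J * κ + (q * Ψ - p * Ψi) / 2)) * hΨ
  have hδy : δ y = -2 * y * (J * κ + (q * Ψ - p * Ψi) / 2) := by
    rw [hy, Derivation.leibniz_pow, hδΨi]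
    simp only [smul_eq_mul, nsmul_eq_mul]
    push_cast
    ring
  set W : R2 := (1 + X * C X) * (∏ i, Bx (t i) (l i) (X : R2) (C X)) with hW
  have hWev : ev2 p q W = (1 + p * q) * Pp := by
    rw [hW, map_mul, map_add, map_mul, map_one, ev2_X, ev2_CX, map_prod]
    simp only [map_Bx, ev2_X, ev2_CX, hBx]
    rfl
  have hcp : c * δ p = ev2 p q W := by
    rw [hWev, hp, hc]
    linear_combination ((1 + p * q) * Pp) * hΨ
  have hcq : c * δ q = ev2 p q W * y := by
    rw [hWev, hq, hc, hy]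
    ring
  set V : R3 := -2 * (C (C (C Complex.I)) * Kx μ t l (C X : R3) (C (C X)) X
      + C (∏ i, Bx (t i) (l i) (X : R2) (C X)) * (C (C X) - C X * X)) with hV
  have hVev : ev3 p q y V = -2 * (J * (c * κ) + Pp * (q - p * y)) := by
    have e1 : ev3 p q y (C (C (C Complex.I))) = J := by
      rw [hJ]
      exact (ev3 p q y).commutes Complex.I
    have e2 : ev3 p q y (Kx μ t l (C X : R3) (C (C X)) X) = c * κ := by
      rw [map_Kx]
      simp only [ev3_C, ev3_X, ev2_X, ev2_CX]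
      exact hKx
    have e3 : ev3 p q y (C (∏ i, Bx (t i) (l i) (X : R2) (C X))) = Pp := by
      rw [ev3_C, map_prod]
      simp only [map_Bx, ev2_X, ev2_CX, hBx]
      rfl
    rw [hV, map_mul, map_add, map_mul, map_mul, map_sub, map_mul, e1, e2, e3]
    simp only [ev3_C, ev3_X, ev2_X, ev2_CX, map_neg, map_ofNat]
  have hcy : c * δ y = y * ev3 p q y V := by
    rw [hVev, hδy, hc, hy]
    linear_combination (-2 * Ψi ^ 2 * Pp * q) * hΨ
  obtain ⟨h, hh, hh0⟩ := exists_D3 δ p q y c W V hcp hcq hcy f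
  rw [ev3_apply p q y f, hf0, map_zero, mul_zero] at hh
  obtain ⟨u, hu⟩ := hfdvd h (by rw [← ev3_apply]; exact hh.symm)
  have hd1 : f.coeff 0 ∣ W * derivative (f.coeff 0) := by
    rw [← hh0, hu, mul_coeff_zero]; exact dvd_mul_right _ _
  have hP0' : f.coeff 0 * g.coeff 0 = C (C Complex.I) * Gx μ t l (X : R2) (C X) := by
    rw [← mul_coeff_zero, ← hg, hP, Px_coeff_zero]
  have hf00 : f.coeff 0 ≠ 0 := by
    intro h0
    rw [h0, zero_mul] at hP0'
    exact mul_ne_zero hCI hG0 hP0'.symm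
  have hd2 : f.coeff 0 ∣ Gx μ t l (X : R2) (C X) := by
    have e1 : C (C (-Complex.I)) * (C (C Complex.I) * Gx μ t l (X : R2) (C X)) =
        Gx μ t l (X : R2) (C X) := by
      rw [← mul_assoc, ← C_mul, ← C_mul]
      have : -Complex.I * Complex.I = 1 := by simp
      rw [this, C_1, C_1, one_mul]
    rw [← e1, ← hP0']
    exact (dvd_mul_right _ _).mul_left _
  have hunit := isUnit_of_dvd μ hμ t l hinj hcard (f.coeff 0) hf00 hd1 hd2
  exact hfdeg (natDegree_eq_zero_of_factor μ hμ t l hc1 f g hg.symm hunit)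

end BH
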